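import Pool.Agent.helper34.MO.SpecB

/-! # Row mo:ACT (MP_0631c5_co): the Schur complement of a branch is positive semidefinite -/

set_option autoImplicit false

open Complex Finset

namespace Pool.Agent.MO

theorem ACT_psd (p q r x y : ℝ) (hp : 0 ≤ p) (hq : 0 ≤ q) (h : r ^ 2 ≤ p * q) :
    0 ≤ p * x ^ 2 + 2 * r * x * y + q * y ^ 2 := by
  rcases hp.eq_or_lt with h0 | h0
  · have hr : r = 0 := by
      rw [← h0, zero_mul] at h
      exact pow_eq_zero_iff (two_ne_zero) |>.1 (le_antisymm h (sq_nonneg r))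
    rw [← h0, hr]
    have := mul_nonneg hq (sq_nonneg y)
    linarith
  · have h1 : 0 ≤ p * (p * x ^ 2 + 2 * r * x * y + q * y ^ 2) := by
      have e : p * (p * x ^ 2 + 2 * r * x * y + q * y ^ 2) =
          (p * x + r * y) ^ 2 + (p * q - r ^ 2) * y ^ 2 := by ring
      rw [e]
      have h2 := mul_nonneg (sub_nonneg.2 h) (sq_nonneg y)
      have h3 := sq_nonneg (p * x + r * y)
      linarith
    exact nonneg_of_mul_nonneg_right h1 h0

theorem ACT_quad (p q r : ℝ) (h : ∀ x y : ℝ, 0 ≤ p * x ^ 2 + 2 * r * x * y + q * y ^ 2) :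
    0 ≤ p ∧ 0 ≤ q ∧ r ^ 2 ≤ p * q := by
  refine ⟨?_, ?_, ?_⟩
  · have := h 1 0
    linarith
  · have := h 0 1
    linarith
  · have h1 : discrim p (2 * r) q ≤ 0 := discrim_le_zero fun x => by
      have := h x 1
      linarith
    rw [discrim] at h1
    nlinarith

theorem ACT_key (T : ℝ) (L R : BD) (hT : 0 < T) (hL : Psd2 L.al L.be L.mu)
    (hR : Psd2 R.al R.be R.mu) : Psd2 (comb T L R).al (comb T L R).be (comb T L R).mu := by
  obtain ⟨l1, l2, l3⟩ := hL
  obtain ⟨r1, r2, r3⟩ := hR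
  have hPre : (pv T L R).re = T + L.be.re + R.al.re := by
    unfold pv
    rw [add_re, add_re, ofReal_re]
  have hP0 : 0 < (pv T L R).re := by rw [hPre]; linarith
  have hPne : pv T L R ≠ 0 := by
    intro h
    rw [h] at hP0
    simp at hP0
  refine ACT_quad _ _ _ fun x y => ?_
  set P := pv T L R with hP
  obtain ⟨c, hc⟩ : ∃ c : ℂ, P * c = -((L.mu - I) * x + (R.mu - I) * y) :=
    ⟨-((L.mu - I) * x + (R.mu - I) * y) / P, by field_simp⟩
  have hS : (comb T L R).al * (x : ℂ) ^ 2 + 2 * (comb T L R).mu * x * y +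
      (comb T L R).be * (y : ℂ) ^ 2 = L.al * (x : ℂ) ^ 2 + R.be * (y : ℂ) ^ 2 - P * c ^ 2 := by
    have h1 : P * c ^ 2 = ((L.mu - I) * x + (R.mu - I) * y) ^ 2 / P := by
      rw [eq_div_iff hPne]
      calc P * c ^ 2 * P = (P * c) ^ 2 := by ring
        _ = _ := by rw [hc]; ring
    rw [h1]
    show (L.al - (L.mu - I) ^ 2 / P) * (x : ℂ) ^ 2 + 2 * (-((L.mu - I) * (R.mu - I)) / P) * x * y +
      (R.be - (R.mu - I) ^ 2 / P) * (y : ℂ) ^ 2 = _
    field_simp
    ring
  have hre := congrArg Complex.re hS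
  have hcre := congrArg Complex.re hc
  have hx2 : ((x : ℂ) ^ 2) = ((x ^ 2 : ℝ) : ℂ) := by push_cast; rfl
  have hy2 : ((y : ℂ) ^ 2) = ((y ^ 2 : ℝ) : ℂ) := by push_cast; rfl
  have hlhs : ((comb T L R).al * (x : ℂ) ^ 2 + 2 * (comb T L R).mu * x * y +
      (comb T L R).be * (y : ℂ) ^ 2).re =
      (comb T L R).al.re * x ^ 2 + 2 * (comb T L R).mu.re * x * y + (comb T L R).be.re * y ^ 2 := by
    rw [hx2, hy2]
    simp only [add_re, mul_re, ofReal_re, ofReal_im, mul_im, re_ofNat, im_ofNat]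
    ring
  rw [hlhs] at hre
  rw [hre, hx2, hy2]
  simp only [add_re, mul_re, ofReal_re, ofReal_im, mul_im, neg_re, sub_re, sub_im, I_re, I_im,
    pow_two c] at hcre ⊢
  have q1 := ACT_psd L.al.re L.be.re L.mu.re x c.re l1 l2 l3
  have q2 := ACT_psd R.al.re R.be.re R.mu.re c.re y r1 r2 r3
  have q3 : 0 ≤ T * (c.re ^ 2 + c.im ^ 2) := by positivity
  have q4 : 0 ≤ (L.be.re + R.al.re) * c.im ^ 2 := by positivity
  have hcre' : P.im * c.im = P.re * c.re + (L.mu.re * x + R.mu.re * y) := by linarith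
  have e : L.al.re * x ^ 2 - 0 + (R.be.re * y ^ 2 - 0) - (P.re * (c.re * c.re - c.im * c.im) -
      P.im * (c.re * c.im + c.im * c.re)) =
      (L.al.re * x ^ 2 + 2 * L.mu.re * x * c.re + L.be.re * c.re ^ 2) +
      (R.al.re * c.re ^ 2 + 2 * R.mu.re * c.re * y + R.be.re * y ^ 2) +
      T * (c.re ^ 2 + c.im ^ 2) + (L.be.re + R.al.re) * c.im ^ 2 := by
    have h2 : P.im * (c.re * c.im + c.im * c.re) =
        2 * c.re * (P.re * c.re + (L.mu.re * x + R.mu.re * y)) := by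
      rw [← hcre']; ring
    rw [h2, hPre]
    ring
  nlinarith [e]

theorem ACT : ACT_stmt := by
  intro t
  induction t with
  | e =>
    intro _
    refine ⟨?_, ?_, ?_⟩ <;> simp [bd]
  | nd o l r ihl ihr =>
    intro h
    cases o with
    | none =>
      obtain ⟨hl, hr⟩ := h
      obtain ⟨l1, l2, l3⟩ := ihl hl
      obtain ⟨r1, r2, r3⟩ := ihr hr
      refine ⟨l1, r2, ?_⟩
      show (0 : ℂ).re ^ 2 ≤ (bd l).al.re * (bd r).be.re
      have := mul_nonneg l1 r2
      simpa using this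
    | some T =>
      obtain ⟨hT, hl, hr⟩ := h
      exact ACT_key T (bd l) (bd r) hT (ihl hl) (ihr hr)

end Pool.Agent.MO
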