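import Pool.Agent.helper34.MO.SpecC

/-! # Row mo:ATS (MP_0631c5_co): elementary properties of the adjacency functions -/

set_option autoImplicit false

open Complex Finset

namespace Pool.Agent.MO

theorem ATS_AT (t : Tr) : ∀ (i x y : ℕ), AT t i x y = AT t i y x ∧
    (AT t i x y = 0 ∨ AT t i x y = 1) ∧ AT t i x x = 0 ∧
    (AT t i x y ≠ 0 → i ≤ x ∧ x ≤ i + t.sz + 1 ∧ i ≤ y ∧ y ≤ i + t.sz + 1) ∧
    AT t i i (i + t.sz + 1) = 0 := by
  induction t with
  | e =>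
    intro i x y
    refine ⟨rfl, Or.inl rfl, rfl, fun h => absurd rfl h, rfl⟩
  | nd l r ihl ihr =>
    intro i x y
    have hsz : (Tr.nd l r).sz = l.sz + r.sz + 1 := rfl
    have hdef : ∀ x y, AT (.nd l r) i x y =
      (if (x = i ∧ y = i + l.sz + 1) ∨ (x = i + l.sz + 1 ∧ y = i) ∨
        (x = i + l.sz + 1 ∧ y = i + l.sz + 1 + r.sz + 1) ∨
        (x = i + l.sz + 1 + r.sz + 1 ∧ y = i + l.sz + 1)
      then 1 else 0) + AT l i x y + AT r (i + l.sz + 1) x y := fun _ _ => rfl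
    -- supports
    have hl0 : ∀ x y, ¬ (i ≤ x ∧ x ≤ i + l.sz + 1 ∧ i ≤ y ∧ y ≤ i + l.sz + 1) → AT l i x y = 0 := by
      intro x y h
      by_contra h'
      exact h ((ihl i x y).2.2.2.1 h')
    have hr0 : ∀ x y, ¬ (i + l.sz + 1 ≤ x ∧ x ≤ i + l.sz + 1 + r.sz + 1 ∧ i + l.sz + 1 ≤ y ∧
        y ≤ i + l.sz + 1 + r.sz + 1) → AT r (i + l.sz + 1) x y = 0 := by
      intro x y h
      by_contra h'
      exact h ((ihr (i + l.sz + 1) x y).2.2.2.1 h')
    have hl1 : AT l i i (i + l.sz + 1) = 0 := (ihl i 0 0).2.2.2.2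
    have hl2 : AT l i (i + l.sz + 1) i = 0 := by rw [(ihl i _ _).1]; exact hl1
    have hr1 : AT r (i + l.sz + 1) (i + l.sz + 1) (i + l.sz + 1 + r.sz + 1) = 0 :=
      (ihr (i + l.sz + 1) 0 0).2.2.2.2
    have hr2 : AT r (i + l.sz + 1) (i + l.sz + 1 + r.sz + 1) (i + l.sz + 1) = 0 := by
      rw [(ihr (i + l.sz + 1) _ _).1]; exact hr1
    have hld : ∀ x, AT l i x x = 0 := fun x => (ihl i x x).2.2.1
    have hrd : ∀ x, AT r (i + l.sz + 1) x x = 0 := fun x => (ihr (i + l.sz + 1) x x).2.2.1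
    refine ⟨?_, ?_, ?_, ?_, ?_⟩
    · rw [hdef, hdef, (ihl i x y).1, (ihr (i + l.sz + 1) x y).1]
      congr 2
      refine if_congr ?_ rfl rfl
      omega
    · rw [hdef]
      by_cases hc : (x = i ∧ y = i + l.sz + 1) ∨ (x = i + l.sz + 1 ∧ y = i) ∨
        (x = i + l.sz + 1 ∧ y = i + l.sz + 1 + r.sz + 1) ∨
        (x = i + l.sz + 1 + r.sz + 1 ∧ y = i + l.sz + 1)
      · right
        rw [if_pos hc]
        rcases hc with ⟨rfl, rfl⟩ | ⟨rfl, rfl⟩ | ⟨rfl, rfl⟩ | ⟨rfl, rfl⟩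
        · rw [hl1, hr0 _ _ (by omega)]; norm_num
        · rw [hl2, hr0 _ _ (by omega)]; norm_num
        · rw [hr1, hl0 _ _ (by omega)]; norm_num
        · rw [hr2, hl0 _ _ (by omega)]; norm_num
      · rw [if_neg hc, zero_add]
        by_cases hx : x ≤ i + l.sz + 1 ∧ y ≤ i + l.sz + 1
        · have h0 : AT r (i + l.sz + 1) x y = 0 := by
            by_cases hxy : x = y
            · rw [hxy]; exact hrd y
            · exact hr0 _ _ (by omega)
          rw [h0, add_zero]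
          exact (ihl i x y).2.1
        · rw [hl0 x y (by omega), zero_add]
          exact (ihr (i + l.sz + 1) x y).2.1
    · rw [hdef, hld, hrd, if_neg (by omega)]
      norm_num
    · intro h
      by_contra hc
      apply h
      rw [hsz] at hc
      rw [hdef, if_neg (by omega), hl0 x y (by omega), hr0 x y (by omega)]
      norm_num
    · rw [hdef, hsz, if_neg (by omega), hl0 _ _ (by omega), hr0 _ _ (by omega)]
      norm_num

theorem ATS : ATS_stmt := by
  refine ⟨fun t => ATS_AT t, ?_⟩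
  intro t x y
  have hdef : ∀ x y, AG t x y =
    (if (x = 0 ∧ y = t.sz + 1) ∨ (x = t.sz + 1 ∧ y = 0) then 1 else 0) + AT t 0 x y := fun _ _ => rfl
  have h1 : AT t 0 0 (t.sz + 1) = 0 := by
    have := (ATS_AT t 0 0 0).2.2.2.2
    rwa [Nat.zero_add] at this
  have h2 : AT t 0 (t.sz + 1) 0 = 0 := by rw [(ATS_AT t 0 _ _).1]; exact h1
  refine ⟨?_, ?_, ?_, ?_⟩
  · rw [hdef, hdef, (ATS_AT t 0 x y).1]
    congr 1
    refine if_congr ?_ rfl rfl
    omega
  · rw [hdef]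
    by_cases hc : (x = 0 ∧ y = t.sz + 1) ∨ (x = t.sz + 1 ∧ y = 0)
    · right
      rw [if_pos hc]
      rcases hc with ⟨rfl, rfl⟩ | ⟨rfl, rfl⟩
      · rw [h1, add_zero]
      · rw [h2, add_zero]
    · rw [if_neg hc, zero_add]
      exact (ATS_AT t 0 x y).2.1
  · rw [hdef, (ATS_AT t 0 x x).2.2.1, if_neg (by omega), add_zero]
  · intro h
    by_contra hc
    apply h
    have h0 : AT t 0 x y = 0 := by
      by_contra h'
      have := (ATS_AT t 0 x y).2.2.2.1 h'
      omega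
    rw [hdef, h0, if_neg (by omega), add_zero]

end Pool.Agent.MO
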