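import Pool.Agent.helper34.MO.SpecB

/-! # Row mo:EX2 (MP_0631c5_co): exchange for two indices -/

set_option autoImplicit false

open Complex Finset

namespace Pool.Agent.MO

theorem EX2 (hEV : EV_stmt) (hA2P : A2P_stmt) (hPHS : PHS_stmt) : EX2_stmt := by
  intro A B m h
  have hF01 : (G5 A B 0 0 0 m 0 0 0 0 0 0) 0 1 = (G5 A B 0 0 0 m 0 0 0 0 0 0) 1 0 := rfl
  have hacc : AccS (G5 A B 0 0 0 m 0 0 0 0 0 0) {0, 1} := (hA2P.2 _ 0 1 (by decide) hF01).2 h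
  have hacc' : AccS (G5 A B 0 0 0 m 0 0 0 0 0 0) {1, 0} := by
    rw [Finset.pair_comm]; exact hacc
  have e1 := hEV.1 (G5 A B 0 0 0 m 0 0 0 0 0 0) 0 1 (by decide) hF01 hacc
  have e2 := hEV.1 (G5 A B 0 0 0 m 0 0 0 0 0 0) 1 0 (by decide) hF01.symm hacc'
  rw [Finset.pair_comm 1 0, e1] at e2
  refine ⟨e2, ?_⟩
  obtain ⟨_, hs, _⟩ := hPHS (G5 A B 0 0 0 m 0 0 0 0 0 0) {1} 0 (by decide) hacc
  have h1 := hs (fun _ => 1) ⟨1, by decide, one_ne_zero⟩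
  rw [Finset.sum_singleton, Finset.sum_singleton] at h1
  have h2 : (starRingEnd ℂ) (1 : ℂ) * sch (G5 A B 0 0 0 m 0 0 0 0 0 0) 0 1 1 * 1 = B - m ^ 2 / A := by
    rw [map_one, one_mul, mul_one]
    show B - m * m / A = B - m ^ 2 / A
    rw [pow_two]
  rw [h2] at h1
  exact h1

end Pool.Agent.MO
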