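import Pool.Agent.helper34.MO.SpecB

/-! # Row mo:G2D (MP_0631c5_co): deletion of a port as a limit -/

set_option autoImplicit false

open Complex Finset

namespace Pool.Agent.MO

theorem G2D_arg (z : ℂ) (hz : 0 < z.re) : arg z = Real.arctan (z.im / z.re) := by
  have h1 : |arg z| < Real.pi / 2 := Complex.abs_arg_lt_pi_div_two_iff.2 (Or.inl hz)
  rw [← Complex.tan_arg z, Real.arctan_tan (by linarith [(abs_lt.1 h1).1]) (abs_lt.1 h1).2]

theorem G2D_lim (z : ℂ) : Filter.Tendsto (fun q : ℝ => arg (z + q)) Filter.atTop (nhds 0) := by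
  have h1 : Filter.Tendsto (fun q : ℝ => Real.arctan (z.im / (z.re + q))) Filter.atTop (nhds 0) := by
    have h2 : Filter.Tendsto (fun q : ℝ => z.im / (z.re + q)) Filter.atTop (nhds 0) :=
      Filter.Tendsto.div_atTop tendsto_const_nhds
        (Filter.tendsto_atTop_add_const_left _ _ Filter.tendsto_id)
    have h3 := (Real.continuous_arctan.tendsto 0).comp h2
    rw [Real.arctan_zero] at h3
    exact h3
  refine h1.congr' ?_
  filter_upwards [Filter.eventually_gt_atTop (-z.re)] with q hq
  rw [G2D_arg (z + q) (by rw [add_re, ofReal_re]; linarith), add_re, ofReal_re, add_im, ofReal_im,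
    add_zero]

theorem G2D_pos (f : ℝ) (w : ℂ) (z : ℝ → ℂ) (hz : ∀ q, z q = w + q)
    (h : ∀ q : ℝ, 0 ≤ q → 0 ≤ f + arg (z q)) : 0 ≤ f := by
  have h1 : Filter.Tendsto (fun q : ℝ => f + arg (w + q)) Filter.atTop (nhds (f + 0)) :=
    Filter.Tendsto.add tendsto_const_nhds (G2D_lim w)
  rw [add_zero] at h1
  refine ge_of_tendsto h1 ?_
  filter_upwards [Filter.eventually_ge_atTop 0] with q hq
  have := h q hq
  rwa [hz] at this

theorem G2D_two (f : ℝ) (A : ℂ) (hA : 0 < A.re) (h : Good1 f A) :
    0 ≤ f ∧ ∀ z : ℂ, 0 ≤ z.re → 0 ≤ z.im → Good1 f (A + z) := by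
  have hf : 0 ≤ f := G2D_pos f A (fun q => A + q) (fun _ => rfl) h
  refine ⟨hf, fun z hz1 hz2 p hp => ?_⟩
  have hre : (A + z + p).re = A.re + z.re + p := by rw [add_re, add_re, ofReal_re]
  have him : (A + z + p).im = A.im + z.im := by rw [add_im, add_im, ofReal_im, add_zero]
  have hpos : 0 < A.re + z.re + p := by linarith
  rw [G2D_arg _ (by rw [hre]; exact hpos), hre, him]
  have h1 := h (z.re + p) (by linarith)
  have hre' : (A + ((z.re + p : ℝ) : ℂ)).re = A.re + z.re + p := by
    rw [add_re, ofReal_re]; ring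
  have him' : (A + ((z.re + p : ℝ) : ℂ)).im = A.im := by
    rw [add_im, ofReal_im, add_zero]
  rw [G2D_arg _ (by rw [hre']; exact hpos), hre', him'] at h1
  have h2 : Real.arctan (A.im / (A.re + z.re + p)) ≤
      Real.arctan ((A.im + z.im) / (A.re + z.re + p)) := by
    refine Real.arctan_mono ?_
    exact div_le_div_of_nonneg_right (by linarith) hpos.le
  linarith

theorem G2D (hEX2 : EX2_stmt) : G2D_stmt := by
  refine ⟨?_, fun f A hA h => G2D_two f A hA h⟩
  intro f A B m hacc h
  obtain ⟨h1, h2, h3⟩ := hacc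
  have hA : Good1 f A := by
    intro p hp
    refine G2D_pos (f + arg (A + p)) (B - m ^ 2 / (A + p)) (fun q => B + q - m ^ 2 / (A + p))
      (fun q => by ring) (fun q hq => ?_)
    have := h p q hp hq
    unfold ph2 at this
    linarith
  have hB : Good1 f B := by
    intro q hq
    refine G2D_pos (f + arg (B + q)) (A - m ^ 2 / (B + q)) (fun p => A + p - m ^ 2 / (B + q))
      (fun p => by ring) (fun p hp => ?_)
    have h4 := h p q hp hq
    have hacc : Acc2 (A + p) (B + q) m := by
      refine ⟨?_, ?_, ?_⟩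
      · rw [add_re, ofReal_re]; linarith
      · rw [add_re, ofReal_re]; linarith
      · rw [add_re, ofReal_re, add_re, ofReal_re]
        have : 0 ≤ A.re * q + p * B.re + p * q := by positivity
        nlinarith
    rw [(hEX2 _ _ _ hacc).1] at h4
    unfold ph2 at h4
    linarith
  exact ⟨hA, hB, (G2D_two f A h1 hA).1⟩

end Pool.Agent.MO
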