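import Pool.Agent.helper34.MO.SpecD

/-! # Row mo:IN1 (MP_0631c5_co): an integral -/

set_option autoImplicit false

open Complex Finset

namespace Pool.Agent.MO

theorem IN1 : IN1_stmt := by
  unfold IN1_stmt
  have hderiv : ∀ x ∈ Set.Ioo (0 : ℝ) 1, HasDerivAt
      (fun t : ℝ => Real.pi / 4 * t ^ 2 - (t ^ 2 - 1) * Real.arctan (Real.sqrt t) +
        t * Real.sqrt t / 3 - Real.sqrt t)
      (x * (Real.pi / 2 - 2 * Real.arctan (Real.sqrt x))) x := by
    intro x hx
    have hx0 : 0 < x := hx.1
    have hs : 0 < Real.sqrt x := Real.sqrt_pos.2 hx0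
    have hss : Real.sqrt x ^ 2 = x := Real.sq_sqrt hx0.le
    have d1 : HasDerivAt (fun t : ℝ => Real.sqrt t) (1 / (2 * Real.sqrt x)) x :=
      Real.hasDerivAt_sqrt hx0.ne'
    have d2 : HasDerivAt (fun t : ℝ => Real.arctan (Real.sqrt t))
        (1 / (1 + Real.sqrt x ^ 2) * (1 / (2 * Real.sqrt x))) x := d1.arctan
    have d3 : HasDerivAt (fun t : ℝ => t ^ 2) (2 * x) x := by
      have := hasDerivAt_pow 2 x
      norm_num at this
      exact this
    have d4 := (d3.sub_const 1).mul d2
    have d5 := (((hasDerivAt_id x).mul d1).div_const 3)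
    have d6 := (((d3.const_mul (Real.pi / 4)).sub d4).add d5).sub d1
    have e : Real.pi / 4 * (2 * x) - (2 * x * Real.arctan (Real.sqrt x) +
        (x ^ 2 - 1) * (1 / (1 + Real.sqrt x ^ 2) * (1 / (2 * Real.sqrt x)))) +
        (1 * Real.sqrt x + id x * (1 / (2 * Real.sqrt x))) / 3 - 1 / (2 * Real.sqrt x) =
        x * (Real.pi / 2 - 2 * Real.arctan (Real.sqrt x)) := by
      have h1 : (1 + x) ≠ 0 := by positivity
      have h2 : (x ^ 2 - 1) * (1 / (1 + x) * (1 / (2 * Real.sqrt x))) = (x - 1) / (2 * Real.sqrt x) := by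
        field_simp
        ring
      rw [hss, h2]
      have h3 : (1 * Real.sqrt x + id x * (1 / (2 * Real.sqrt x))) / 3 = Real.sqrt x / 2 := by
        have h4 : id x * (1 / (2 * Real.sqrt x)) = Real.sqrt x / 2 := by
          show x * (1 / (2 * Real.sqrt x)) = Real.sqrt x / 2
          rw [← hss]
          have : Real.sqrt (Real.sqrt x ^ 2) = Real.sqrt x := by rw [hss]
          rw [this]
          field_simp
        rw [h4]; ring
      rw [h3]
      have h5 : (x - 1) / (2 * Real.sqrt x) = Real.sqrt x / 2 - 1 / (2 * Real.sqrt x) := by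
        have h6 : x / (2 * Real.sqrt x) = Real.sqrt x / 2 := by
          rw [div_eq_div_iff (by positivity) (by norm_num)]
          nlinarith
        rw [sub_div, h6]
      rw [h5]
      ring
    have d7 : HasDerivAt
      (fun t : ℝ => Real.pi / 4 * t ^ 2 - (t ^ 2 - 1) * Real.arctan (Real.sqrt t) +
        t * Real.sqrt t / 3 - Real.sqrt t) _ x := d6
    rw [← e]
    exact d7
  have hcont : ContinuousOn (fun t : ℝ => Real.pi / 4 * t ^ 2 - (t ^ 2 - 1) * Real.arctan (Real.sqrt t) +
        t * Real.sqrt t / 3 - Real.sqrt t) (Set.Icc 0 1) := by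
    refine Continuous.continuousOn ?_
    have h1 : Continuous Real.sqrt := Real.continuous_sqrt
    have h2 : Continuous fun t : ℝ => Real.arctan (Real.sqrt t) := Real.continuous_arctan.comp h1
    fun_prop
  have hint : IntervalIntegrable (fun x : ℝ => x * (Real.pi / 2 - 2 * Real.arctan (Real.sqrt x)))
      MeasureTheory.volume 0 1 := by
    refine Continuous.intervalIntegrable ?_ _ _
    have h1 : Continuous Real.sqrt := Real.continuous_sqrt
    have h2 : Continuous fun t : ℝ => Real.arctan (Real.sqrt t) := Real.continuous_arctan.comp h1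
    fun_prop
  rw [intervalIntegral.integral_eq_sub_of_hasDerivAt_of_le zero_le_one hcont hderiv hint]
  rw [Real.sqrt_one, Real.sqrt_zero, Real.arctan_zero, Real.arctan_one]
  ring

end Pool.Agent.MO
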