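import Pool.Agent.helper34.MO.SpecB

/-! # Row mo:ACG (MP_0631c5_co): accretivity of the five vertex structures -/

set_option autoImplicit false

open Complex Finset

namespace Pool.Agent.MO

theorem ACG_psd (p q r x y : ℝ) (hp : 0 ≤ p) (hq : 0 ≤ q) (h : r ^ 2 ≤ p * q) :
    0 ≤ p * x ^ 2 + 2 * r * x * y + q * y ^ 2 := by
  rcases hp.eq_or_lt with h0 | h0
  · have hr : r = 0 := by
      rw [← h0, zero_mul] at h
      exact pow_eq_zero_iff (two_ne_zero) |>.1 (le_antisymm h (sq_nonneg r))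
    rw [← h0, hr]
    have := mul_nonneg hq (sq_nonneg y)
    linarith
  · have h1 : 0 ≤ p * (p * x ^ 2 + 2 * r * x * y + q * y ^ 2) := by
      have e : p * (p * x ^ 2 + 2 * r * x * y + q * y ^ 2) =
          (p * x + r * y) ^ 2 + (p * q - r ^ 2) * y ^ 2 := by ring
      rw [e]
      have h2 := mul_nonneg (sub_nonneg.2 h) (sq_nonneg y)
      have h3 := sq_nonneg (p * x + r * y)
      linarith
    exact nonneg_of_mul_nonneg_right h1 h0

theorem ACG_acc (p q r x y : ℝ) (hp : 0 < p) (h : r ^ 2 < p * q) (hxy : x ≠ 0 ∨ y ≠ 0) :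
    0 < p * x ^ 2 + 2 * r * x * y + q * y ^ 2 := by
  have e : p * (p * x ^ 2 + 2 * r * x * y + q * y ^ 2) =
      (p * x + r * y) ^ 2 + (p * q - r ^ 2) * y ^ 2 := by ring
  have h1 : 0 < p * (p * x ^ 2 + 2 * r * x * y + q * y ^ 2) := by
    rw [e]
    by_cases hy : y = 0
    · rcases hxy with hx | hx
      · rw [hy]
        have : 0 < (p * x) ^ 2 := by positivity
        nlinarith
      · exact absurd hy hx
    · have h2 : 0 < (p * q - r ^ 2) * y ^ 2 := mul_pos (sub_pos.2 h) (by positivity)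
      have h3 := sq_nonneg (p * x + r * y)
      linarith
  exact (mul_pos_iff_of_pos_left hp).1 h1

theorem ACG : ACG_stmt := by
  intro A B m al be mu C U W ac bc au cu bw cw hA hal hC hU hW hac hbc hau hcu hbw hcw x hx
  obtain ⟨hA1, hA2, hA3⟩ := hA
  obtain ⟨ha1, ha2, ha3⟩ := hal
  have key : (∑ i ∈ ({0, 1, 2, 3, 4} : Finset ℕ), ∑ j ∈ ({0, 1, 2, 3, 4} : Finset ℕ),
      (starRingEnd ℂ) (x i) * G5 (A + al) B (C + be) U W m (mu + ac) bc au cu bw cw i j * x j).re =
      (A.re * (x 0).re ^ 2 + 2 * m.re * (x 0).re * (x 1).re + B.re * (x 1).re ^ 2) +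
      (A.re * (x 0).im ^ 2 + 2 * m.re * (x 0).im * (x 1).im + B.re * (x 1).im ^ 2) +
      (al.re * (x 0).re ^ 2 + 2 * mu.re * (x 0).re * (x 2).re + be.re * (x 2).re ^ 2) +
      (al.re * (x 0).im ^ 2 + 2 * mu.re * (x 0).im * (x 2).im + be.re * (x 2).im ^ 2) +
      C * ((x 2).re ^ 2 + (x 2).im ^ 2) + U * ((x 3).re ^ 2 + (x 3).im ^ 2) +
      W * ((x 4).re ^ 2 + (x 4).im ^ 2) := by
    have h5 : ∀ f : ℕ → ℂ, ∑ i ∈ ({0, 1, 2, 3, 4} : Finset ℕ), f i =
        f 0 + (f 1 + (f 2 + (f 3 + f 4))) := by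
      intro f
      rw [Finset.sum_insert (by decide), Finset.sum_insert (by decide),
        Finset.sum_insert (by decide), Finset.sum_insert (by decide), Finset.sum_singleton]
    rw [h5, h5, h5, h5, h5, h5]
    simp only [G5, add_re, mul_re, conj_re, conj_im, ofReal_re, ofReal_im, add_im, mul_im,
      hac, hbc, hau, hcu, hbw, hcw, zero_re, zero_im]
    ring
  rw [key]
  have a1 := ACG_psd A.re B.re m.re (x 0).re (x 1).re hA1.le hA2.le hA3.le
  have a2 := ACG_psd A.re B.re m.re (x 0).im (x 1).im hA1.le hA2.le hA3.le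
  have a3 := ACG_psd al.re be.re mu.re (x 0).re (x 2).re ha1 ha2 ha3
  have a4 := ACG_psd al.re be.re mu.re (x 0).im (x 2).im ha1 ha2 ha3
  have c1 : 0 ≤ C * ((x 2).re ^ 2 + (x 2).im ^ 2) := by positivity
  have c2 : 0 ≤ U * ((x 3).re ^ 2 + (x 3).im ^ 2) := by positivity
  have c3 : 0 ≤ W * ((x 4).re ^ 2 + (x 4).im ^ 2) := by positivity
  have hne : ∀ z : ℂ, z ≠ 0 → 0 < z.re ^ 2 + z.im ^ 2 := by
    intro z hz
    have : 0 < normSq z := normSq_pos.2 hz
    rw [normSq_apply] at this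
    nlinarith
  have hne2 : ∀ z : ℂ, z ≠ 0 → z.re ≠ 0 ∨ z.im ≠ 0 := by
    intro z hz
    by_contra h
    push Not at h
    exact hz (Complex.ext h.1 h.2)
  obtain ⟨i, hi, hxi⟩ := hx
  simp only [Finset.mem_insert, Finset.mem_singleton] at hi
  rcases hi with rfl | rfl | rfl | rfl | rfl
  · rcases hne2 _ hxi with h | h
    · have := ACG_acc A.re B.re m.re (x 0).re (x 1).re hA1 hA3 (Or.inl h)
      linarith
    · have := ACG_acc A.re B.re m.re (x 0).im (x 1).im hA1 hA3 (Or.inl h)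
      linarith
  · rcases hne2 _ hxi with h | h
    · have := ACG_acc A.re B.re m.re (x 0).re (x 1).re hA1 hA3 (Or.inr h)
      linarith
    · have := ACG_acc A.re B.re m.re (x 0).im (x 1).im hA1 hA3 (Or.inr h)
      linarith
  · have := mul_pos hC (hne _ hxi)
    linarith
  · have := mul_pos hU (hne _ hxi)
    linarith
  · have := mul_pos hW (hne _ hxi)
    linarith

end Pool.Agent.MO
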